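import Mathlib
import Pool.Agent.W34.CRW.Main

set_option autoImplicit false

open MeasureTheory ProbabilityTheory Filter Topology

namespace Pool.Agent.Results.MP_37af32_pr.UniformNotExponential

open Pool.Agent.H443R3 Pool.Agent.W34

/-- There is a probabilistic cellular automaton (on `ℤ`, with three symbols) that is ergodic, even
uniformly ergodic, but not exponentially ergodic, not even when the constants of the exponential
bound may depend on the initial law. -/
theorem result :
    ∃ (Φ : PCA 1 (Fin 3)) (π : Measure (Config 1 (Fin 3))),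
      -- `Φ` is ergodic with invariant law `π`
      ErgodicWith Φ π ∧
      -- `Φ` is uniformly ergodic
      (∀ (A : Finset (Site 1)) (u : A → Fin 3) (ε : ℝ), 0 < ε →
        ∃ T : ℕ, ∀ t : ℕ, T ≤ t → ∀ μ : Measure (Config 1 (Fin 3)), IsProbabilityMeasure μ →
          |((Φ.evolve^[t] μ) (cyl A u)).toReal - (π (cyl A u)).toReal| ≤ ε) ∧
      -- `Φ` is not exponentially ergodic: for one initial law `μ` and one cylinder there is no
      -- exponential bound
      (∃ μ : Measure (Config 1 (Fin 3)), IsProbabilityMeasure μ ∧
        ∃ (A : Finset (Site 1)) (u : A → Fin 3), ∀ K γ : ℝ, γ < 1 →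
          ¬ ∀ t : ℕ, |((Φ.evolve^[t] μ) (cyl A u)).toReal - (π (cyl A u)).toReal| ≤ K * γ ^ t) := by
  refine ⟨CRW.Φ, Measure.dirac (fun _ => 0), CRW.ergodic, CRW.uniform,
    Measure.dirac CRW.full, inferInstance, {Movers.s 0}, fun _ => 0, fun K γ hγ h => ?_⟩
  exact CRW.not_exponential K γ hγ (fun t => (CRW.slow t).trans (h t))

end Pool.Agent.Results.MP_37af32_pr.UniformNotExponential
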